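import Pool.Agent.Helper64.MH.Defs

/-!
# Part UP1: the inequality for one variable
-/

set_option autoImplicit false

noncomputable section

namespace MH.Helper10

open MeasureTheory Set
open scoped ENNReal

/-- the tail integral -/
def tl (h : ℝ → ℝ≥0∞) (s : ℝ) : ℝ≥0∞ := ∫⁻ t in Ioi s, h t

theorem tl_eq (h : ℝ → ℝ≥0∞) (s : ℝ) :
    tl h s = ∫⁻ t, if s < t then h t else 0 := by
  unfold tl
  rw [← lintegral_indicator measurableSet_Ioi]
  rfl

theorem meas_lt (h : ℝ → ℝ≥0∞) (hm : Measurable h) :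
    Measurable (fun p : ℝ × ℝ => if p.1 < p.2 then h p.1 * h p.2 else 0) :=
  Measurable.ite (measurableSet_lt measurable_fst measurable_snd)
    ((hm.comp measurable_fst).mul (hm.comp measurable_snd)) measurable_const

theorem meas_gt (h : ℝ → ℝ≥0∞) (hm : Measurable h) :
    Measurable (fun p : ℝ × ℝ => if p.2 < p.1 then h p.1 * h p.2 else 0) :=
  Measurable.ite (measurableSet_lt measurable_snd measurable_fst)
    ((hm.comp measurable_fst).mul (hm.comp measurable_snd)) measurable_const

theorem mul_tl (h : ℝ → ℝ≥0∞) (hm : Measurable h) (s : ℝ) :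
    h s * tl h s = ∫⁻ t, if s < t then h s * h t else 0 := by
  rw [tl_eq, ← lintegral_const_mul]
  · congr 1
    ext t
    split_ifs <;> simp
  · exact Measurable.ite measurableSet_Ioi hm measurable_const

theorem sq (h : ℝ → ℝ≥0∞) (hm : Measurable h) :
    2 * ∫⁻ s, h s * tl h s = (∫⁻ s, h s) ^ 2 := by
  have hA : ∫⁻ s, h s * tl h s = ∫⁻ s, ∫⁻ t, if s < t then h s * h t else 0 :=
    lintegral_congr fun s => mul_tl h hm s
  have hB : ∫⁻ s, h s * tl h s = ∫⁻ s, ∫⁻ t, if t < s then h s * h t else 0 := by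
    rw [hA, lintegral_lintegral_swap (meas_lt h hm).aemeasurable]
    refine lintegral_congr fun s => lintegral_congr fun t => ?_
    rw [mul_comm (h t)]
  rw [two_mul]
  nth_rewrite 2 [hB]
  rw [hA, ← lintegral_add_left (Measurable.lintegral_prod_right' (meas_lt h hm))]
  have hC : ∀ s, (∫⁻ t, if s < t then h s * h t else 0) + (∫⁻ t, if t < s then h s * h t else 0) =
      h s * ∫⁻ t, h t := by
    intro s
    rw [← lintegral_add_left, ← lintegral_const_mul _ hm]
    · refine lintegral_congr_ae ?_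
      have : ∀ᵐ t : ℝ, t ≠ s := by simp [ae_iff]
      filter_upwards [this] with t ht
      rcases lt_or_gt_of_ne ht with h1 | h1
      · simp [h1, not_lt.2 h1.le]
      · simp [h1, not_lt.2 h1.le]
    · exact (meas_lt h hm).comp (measurable_const.prodMk measurable_id)
  simp_rw [hC]
  rw [lintegral_mul_const _ hm, pow_two]

theorem sq_tail (h : ℝ → ℝ≥0∞) (hm : Measurable h) (z : ℝ) :
    2 * ∫⁻ s in Ioi z, h s * tl h s = tl h z ^ 2 := by
  have h1 := sq ((Ioi z).indicator h) (hm.indicator measurableSet_Ioi)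
  rw [lintegral_indicator measurableSet_Ioi] at h1
  unfold tl at h1 ⊢
  rw [← h1]
  congr 1
  rw [← lintegral_indicator measurableSet_Ioi]
  refine lintegral_congr fun s => ?_
  by_cases hs : s ∈ Ioi z
  · rw [indicator_of_mem hs, indicator_of_mem hs]
    congr 1
    refine setLIntegral_congr_fun measurableSet_Ioi ?_
    intro t ht
    have : t ∈ Ioi z := lt_trans (mem_Ioi.1 hs) (mem_Ioi.1 ht)
    exact (indicator_of_mem this h).symm
  · rw [indicator_of_notMem hs, indicator_of_notMem hs, zero_mul]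

theorem meas_tl (h : ℝ → ℝ≥0∞) (hm : Measurable h) : Measurable (tl h) := by
  have : tl h = fun s => ∫⁻ t, if s < t then h t else 0 := funext (tl_eq h)
  rw [this]
  refine Measurable.lintegral_prod_right'
    (f := fun p : ℝ × ℝ => if p.1 < p.2 then h p.2 else 0) ?_
  exact Measurable.ite (measurableSet_lt measurable_fst measurable_snd)
    (hm.comp measurable_snd) measurable_const

theorem four (f : ℝ → ℝ≥0∞) (hm : Measurable f) :
    4 * ∫⁻ s, f s * tl f s ^ 3 = (∫⁻ s, f s) ^ 4 := by
  set f2 : ℝ → ℝ≥0∞ := fun s => 2 * (f s * tl f s) with hf2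
  have hm1 : Measurable (fun s => f s * tl f s) := hm.mul (meas_tl f hm)
  have hm2 : Measurable f2 := hm1.const_mul 2
  have e1 : ∫⁻ s, f2 s = (∫⁻ s, f s) ^ 2 := by
    rw [← sq f hm]
    exact lintegral_const_mul _ hm1
  have e2 : ∀ z, tl f2 z = tl f z ^ 2 := by
    intro z
    rw [← sq_tail f hm z, tl]
    exact lintegral_const_mul _ hm1
  have e3 := sq f2 hm2
  rw [e1] at e3
  have e4 : (∫⁻ s, f s) ^ 4 = ((∫⁻ s, f s) ^ 2) ^ 2 := by ring
  rw [e4, ← e3]
  have e5 : ∀ s, f2 s * tl f2 s = 2 * (f s * tl f s ^ 3) := by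
    intro s
    rw [e2, hf2]
    ring
  simp_rw [e5]
  have hm3 : Measurable (fun s => f s * tl f s ^ 3) := hm.mul ((meas_tl f hm).pow_const 3)
  rw [lintegral_const_mul _ hm3, ← mul_assoc]
  norm_num

theorem up1 : S_UP1 := by
  intro g hg
  have hgm : Measurable g := hg.measurable
  set f : ℝ → ℝ≥0∞ := fun x => g x * ENNReal.ofReal (Real.exp (-x)) with hf
  have hfm : Measurable f := hgm.mul (by fun_prop)
  rw [← four f hfm]
  refine mul_le_mul_right (lintegral_mono fun x => ?_) _
  show g x ^ 4 * ENNReal.ofReal (Real.exp (-(4 * x))) ≤ f x * tl f x ^ 3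
  -- `g(x)^4 e^{-4x} = f(x)^4 ≤ f(x) F(x)^3`
  have h1 : g x ^ 4 * ENNReal.ofReal (Real.exp (-(4 * x))) = f x * f x ^ 3 := by
    have : Real.exp (-(4 * x)) = Real.exp (-x) ^ 4 := by
      rw [← Real.exp_nat_mul]
      congr 1
      push_cast
      ring
    rw [hf, this, ENNReal.ofReal_pow (Real.exp_pos _).le]
    ring
  rw [h1]
  gcongr
  unfold tl
  have h2 : ∫⁻ t in Ioi x, g x * ENNReal.ofReal (Real.exp (-t)) = f x := by
    rw [lintegral_const_mul _ (by fun_prop), hf]
    congr 1
    rw [← ofReal_integral_eq_lintegral_ofReal]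
    · rw [integral_exp_neg_Ioi]
    · exact integrableOn_exp_neg_Ioi x
    · exact Filter.Eventually.of_forall fun t => (Real.exp_pos _).le
  rw [← h2]
  refine setLIntegral_mono' measurableSet_Ioi ?_
  intro t ht
  show g x * ENNReal.ofReal (Real.exp (-t)) ≤ g t * ENNReal.ofReal (Real.exp (-t))
  exact mul_le_mul_left (hg (le_of_lt (mem_Ioi.1 ht))) _

end MH.Helper10
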